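import Pool.Agent.Helper39.RB.M_DEC
import Pool.Agent.Helper83.RB.Main

set_option autoImplicit false

/-! # Order gap: counting words without long strictly decreasing subsequences -/

namespace Pool.Agent.Helper82.OG

open Pool.Agent.Helper83.RB
open Pool.Agent.Helper39.RB

/-- `w` can be coloured by `D` colours such that the letters of every colour are weakly increasing
and at least the threshold `R c`. -/
def Adm {D m : ℕ} : (Fin D → ℕ) → List (Fin m) → Prop
  | _, [] => True
  | R, x :: w => ∃ c, R c ≤ (x : ℕ) ∧ Adm (Function.update R c (x : ℕ)) w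

theorem hockey (ℓ S : ℕ) :
    ∑ j ∈ Finset.range (S + 1), (j + ℓ).choose ℓ = (S + (ℓ + 1)).choose (ℓ + 1) := by
  induction S with
  | zero => simp
  | succ S ih =>
    rw [Finset.sum_range_succ, ih]
    have h1 : S + 1 + (ℓ + 1) = (S + (ℓ + 1)) + 1 := by ring
    have h2 : S + 1 + ℓ = S + (ℓ + 1) := by ring
    rw [h1, Nat.choose_succ_succ, h2, Nat.add_comm]

theorem sum_shift (ℓ S r m : ℕ) (h : m - r ≤ S) :
    ∑ x ∈ (Finset.univ : Finset (Fin m)).filter (fun x : Fin m => r ≤ (x : ℕ)),
      (S - ((x : ℕ) - r) + ℓ).choose ℓ ≤ (S + (ℓ + 1)).choose (ℓ + 1) := by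
  classical
  rw [← hockey]
  have hinj : Set.InjOn (fun x : Fin m => S - ((x : ℕ) - r))
      ((Finset.univ : Finset (Fin m)).filter (fun x : Fin m => r ≤ (x : ℕ)) : Finset (Fin m)) := by
    intro x hx y hy hxy
    have hx1 : r ≤ (x : ℕ) := (Finset.mem_filter.1 (Finset.mem_coe.1 hx)).2
    have hy1 : r ≤ (y : ℕ) := (Finset.mem_filter.1 (Finset.mem_coe.1 hy)).2
    have hx2 := x.2
    have hy2 := y.2
    have hxy' : S - ((x : ℕ) - r) = S - ((y : ℕ) - r) := hxy
    apply Fin.ext
    omega
  have h1 : ∑ x ∈ (Finset.univ : Finset (Fin m)).filter (fun x : Fin m => r ≤ (x : ℕ)),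
      (S - ((x : ℕ) - r) + ℓ).choose ℓ =
      ∑ j ∈ ((Finset.univ : Finset (Fin m)).filter (fun x : Fin m => r ≤ (x : ℕ))).image
        (fun x : Fin m => S - ((x : ℕ) - r)), (j + ℓ).choose ℓ :=
    (Finset.sum_image (f := fun j => (j + ℓ).choose ℓ) hinj).symm
  rw [h1]
  refine Finset.sum_le_sum_of_subset ?_
  intro j hj
  rw [Finset.mem_image] at hj
  obtain ⟨x, _, rfl⟩ := hj
  rw [Finset.mem_range]
  omega

theorem cnt (D m : ℕ) : ∀ (ℓ : ℕ) (R : Fin D → ℕ) (S : ℕ), ∑ c, (m - R c) ≤ S →
    ∃ T : Finset (List (Fin m)), (∀ w : List (Fin m), w.length = ℓ → Adm R w → w ∈ T) ∧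
      T.card ≤ D ^ ℓ * (S + ℓ).choose ℓ := by
  classical
  intro ℓ
  induction ℓ with
  | zero =>
    intro R S _
    refine ⟨{[]}, ?_, by simp⟩
    intro w hw _
    rw [List.length_eq_zero_iff] at hw
    simp [hw]
  | succ ℓ ih =>
    intro R S hS
    have hS' : ∀ (c : Fin D) (x : Fin m), R c ≤ (x : ℕ) →
        ∑ c', (m - Function.update R c (x : ℕ) c') ≤ S - ((x : ℕ) - R c) := by
      intro c x hx
      have h1 : ∑ c', (m - R c') = ∑ c' ∈ Finset.univ.erase c, (m - R c') + (m - R c) :=
        (Finset.sum_erase_add _ _ (Finset.mem_univ c)).symm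
      have h2 : ∑ c', (m - Function.update R c (x : ℕ) c') =
          ∑ c' ∈ Finset.univ.erase c, (m - R c') + (m - (x : ℕ)) := by
        rw [← Finset.sum_erase_add _ _ (Finset.mem_univ c), Function.update_self]
        congr 1
        refine Finset.sum_congr rfl fun c' hc' => ?_
        rw [Function.update_of_ne (Finset.ne_of_mem_erase hc')]
      have h3 := x.2
      omega
    choose T hT1 hT2 using fun (c : Fin D) (x : Fin m) (hx : R c ≤ (x : ℕ)) =>
      ih (Function.update R c (x : ℕ)) (S - ((x : ℕ) - R c)) (hS' c x hx)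
    refine ⟨Finset.univ.biUnion fun c : Fin D =>
      ((Finset.univ : Finset (Fin m)).filter (fun x : Fin m => R c ≤ (x : ℕ))).biUnion fun x =>
        if hx : R c ≤ (x : ℕ) then (T c x hx).image (List.cons x) else ∅, ?_, ?_⟩
    · intro w hw hadm
      cases w with
      | nil => simp at hw
      | cons x w =>
        obtain ⟨c, hc, hw'⟩ := hadm
        rw [Finset.mem_biUnion]
        refine ⟨c, Finset.mem_univ c, ?_⟩
        rw [Finset.mem_biUnion]
        refine ⟨x, by simp [hc], ?_⟩
        rw [dif_pos hc, Finset.mem_image]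
        refine ⟨w, hT1 c x hc w ?_ hw', rfl⟩
        simpa using hw
    · have key : ∀ c : Fin D,
          (((Finset.univ : Finset (Fin m)).filter (fun x : Fin m => R c ≤ (x : ℕ))).biUnion fun x =>
            if hx : R c ≤ (x : ℕ) then (T c x hx).image (List.cons x) else ∅).card ≤
            D ^ ℓ * (S + (ℓ + 1)).choose (ℓ + 1) := by
        intro c
        refine Finset.card_biUnion_le.trans ?_
        have hm : m - R c ≤ S := by
          refine le_trans ?_ hS
          exact Finset.single_le_sum (f := fun c => m - R c) (fun _ _ => Nat.zero_le _)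
            (Finset.mem_univ c)
        refine le_trans ?_ (Nat.mul_le_mul_left _ (sum_shift ℓ S (R c) m hm))
        rw [Finset.mul_sum]
        refine Finset.sum_le_sum fun x hx => ?_
        have hx' : R c ≤ (x : ℕ) := (Finset.mem_filter.1 hx).2
        rw [dif_pos hx']
        exact Finset.card_image_le.trans (hT2 c x hx')
      refine Finset.card_biUnion_le.trans ?_
      refine (Finset.sum_le_sum fun c _ => key c).trans ?_
      rw [Finset.sum_const, Finset.card_univ, Fintype.card_fin, smul_eq_mul, pow_succ]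
      apply le_of_eq
      ring

/-- thresholds of a coloured prefix are ends of strictly decreasing sublists -/
def Inv {D m : ℕ} (u : List (Fin m)) (R : Fin D → ℕ) : Prop :=
  ∀ c : Fin D, R c = 0 ∨ Ch u c (R c + 1)

theorem dec_of_not_adm {D m : ℕ} : ∀ (w u : List (Fin m)) (R : Fin D → ℕ), Inv u R → ¬ Adm R w →
    ∃ s : List (Fin m), s.Sublist (u ++ w) ∧ s.Pairwise (fun a b => b < a) ∧ s.length = D + 1 := by
  classical
  intro w
  induction w with
  | nil => intro u R _ h; exact absurd trivial h
  | cons x w ih =>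
    intro u R hI hA
    have hfl : u ++ x :: w = (u ++ [x]) ++ w := by simp
    -- extension of a chain by `x`
    have hext : ∀ c : Fin D, (x : ℕ) < R c → Ch (u ++ [x]) (c + 1) ((x : ℕ) + 1) := by
      intro c hc
      rcases hI c with h | h
      · omega
      · exact h.ext (List.mem_singleton_self x) (by omega)
    by_cases hex : ∃ j, ∃ hj : j < D, R ⟨j, hj⟩ ≤ (x : ℕ)
    · obtain ⟨hj, hjR⟩ := Nat.find_spec hex
      set j := Nat.find hex with hjdef
      have hmin : ∀ i, (hi : i < j) → (x : ℕ) < R ⟨i, hi.trans hj⟩ := by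
        intro i hi
        have h1 := Nat.find_min hex hi
        push Not at h1
        exact h1 (hi.trans hj)
      have hA' : ¬ Adm (Function.update R ⟨j, hj⟩ (x : ℕ)) w := fun h => hA ⟨⟨j, hj⟩, hjR, h⟩
      rw [hfl]
      refine ih (u ++ [x]) _ ?_ hA'
      intro c
      by_cases hc : c = ⟨j, hj⟩
      · subst hc
        rw [Function.update_self]
        right
        by_cases hj0 : j = 0
        · refine ⟨[], x, by simp, by simp, by simp [hj0], le_rfl⟩
        · have h1 := hext ⟨j - 1, by omega⟩ (hmin (j - 1) (by omega))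
          have h2 : (j - 1) + 1 = j := by omega
          simpa [h2] using h1
      · rw [Function.update_of_ne hc]
        rcases hI c with h | h
        · exact Or.inl h
        · exact Or.inr (h.mono [x])
    · push Not at hex
      by_cases hD : D = 0
      · refine ⟨[x], ?_, by simp, by simp [hD]⟩
        rw [List.singleton_sublist]
        simp
      · have h1 := hext ⟨D - 1, by omega⟩ (hex (D - 1) (by omega))
        obtain ⟨s, y, h2, h3, h4, -⟩ := h1
        refine ⟨s ++ [y], ?_, h3, ?_⟩
        · rw [hfl]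
          exact h2.trans (List.sublist_append_left _ _)
        · rw [List.length_append, h4]
          simp
          omega

/-- The number of words of length `ℓ` which are not `(D + 1)`-divisible. -/
theorem cntMain (D m ℓ : ℕ) : ∃ T : Finset (List (Fin m)),
    T.card ≤ D ^ ℓ * (D * m + ℓ).choose ℓ ∧
      ∀ w : List (Fin m), w.length = ℓ → w ∈ T ∨ DDiv (D + 1) w := by
  obtain ⟨T, hT1, hT2⟩ := cnt D m ℓ (fun _ => 0) (D * m) (by simp)
  refine ⟨T, hT2, fun w hw => ?_⟩
  by_cases h : Adm (fun _ : Fin D => 0) w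
  · exact Or.inl (hT1 w hw h)
  · obtain ⟨s, h1, h2, h3⟩ := dec_of_not_adm w [] (fun _ : Fin D => 0) (fun c => Or.inl rfl) h
    exact Or.inr (ddiv_of_sub lex (by simpa using h1) h2 h3)

end Pool.Agent.Helper82.OG
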