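import Pool.Agent.Helper82.OG.Step

set_option autoImplicit false

/-! # Order gap: assembly -/

namespace Pool.Agent.Helper82.OG

open Pool.Agent.Helper83.RB
open Pool.Agent.Helper42.RB
open scoped BigOperators commutatorElement

/-- `C(N + ℓ, ℓ) ≤ (2 t) ^ ℓ exp (N / t)` for `t ≥ 1`. -/
theorem choose_le (N ℓ : ℕ) (t : ℝ) (ht : 1 ≤ t) :
    ((N + ℓ).choose ℓ : ℝ) ≤ (2 * t) ^ ℓ * Real.exp (N / t) := by
  have ht0 : 0 < t := by linarith
  have h1 : ((N + ℓ).choose ℓ : ℝ) * t ^ N ≤ (1 + t) ^ (N + ℓ) := by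
    rw [add_pow]
    have h2 := Finset.single_le_sum
      (f := fun j => (1 : ℝ) ^ j * t ^ (N + ℓ - j) * ((N + ℓ).choose j : ℝ))
      (s := Finset.range (N + ℓ + 1)) (fun j _ => by positivity)
      (Finset.mem_range.2 (show ℓ < N + ℓ + 1 by omega))
    refine le_trans (le_of_eq ?_) h2
    simp only [one_pow, one_mul, Nat.add_sub_cancel]
    ring
  have h3 : (1 + t) ^ (N + ℓ) ≤ t ^ N * ((2 * t) ^ ℓ * Real.exp (N / t)) := by
    rw [pow_add]
    have h4 : (1 + t) ^ N ≤ t ^ N * Real.exp (N / t) := by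
      have h5 : 1 + t ≤ t * Real.exp (1 / t) := by
        have h6 := Real.add_one_le_exp (1 / t)
        calc 1 + t = t * (1 / t + 1) := by field_simp
          _ ≤ t * Real.exp (1 / t) := mul_le_mul_of_nonneg_left h6 ht0.le
      calc (1 + t) ^ N ≤ (t * Real.exp (1 / t)) ^ N := pow_le_pow_left₀ (by linarith) h5 N
        _ = t ^ N * Real.exp (N / t) := by
            rw [mul_pow, ← Real.exp_nat_mul]
            congr 2
            ring
    have h7 : (1 + t) ^ ℓ ≤ (2 * t) ^ ℓ := pow_le_pow_left₀ (by linarith) (by linarith) ℓ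
    calc (1 + t) ^ N * (1 + t) ^ ℓ ≤ (t ^ N * Real.exp (N / t)) * (2 * t) ^ ℓ :=
          mul_le_mul h4 h7 (by positivity) (by positivity)
      _ = t ^ N * ((2 * t) ^ ℓ * Real.exp (N / t)) := by ring
  have h8 : 0 < t ^ N := by positivity
  refine le_of_mul_le_mul_left ?_ h8
  calc t ^ N * ((N + ℓ).choose ℓ : ℝ) = ((N + ℓ).choose ℓ : ℝ) * t ^ N := by ring
    _ ≤ _ := h1.trans h3

/-- The number of generators of the factors of the lower central series. -/
theorem layer {p D : ℕ} [Fact p.Prime] (hD : 1 ≤ D) (W : Set (FreeGroup ℕ))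
    {a : Equiv.Perm (Fin (D + 1)) → ℕ} (ha : ∃ σ, ¬ p ∣ a σ)
    (hrel : ∀ (G : Type) [Group G] [Finite G], (∀ g : G, g ^ p = 1) → Sat W G →
      ∀ (V : Subgroup G) [V.Normal], (∀ x ∈ V, ∀ y ∈ V, x * y = y * x) → VRel (D + 1) V a)
    {m : ℕ} {G : Type} [Group G] [Finite G] (hexp : ∀ g : G, g ^ p = 1) (hsat : Sat W G)
    (f : Fin m → G) (hf : Subgroup.closure (Set.range f) = ⊤) (i : ℕ) :
    ∀ t : ℝ, 1 ≤ t → ∃ S : Finset G,
      (S.card : ℝ) ≤ (16 * D) ^ (i + 1) * t ^ (i + 1) * Real.exp (2 * (D * m) / t) ∧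
      (S : Set G) ⊆ (Gam G i : Set G) ∧
      Gam G i ≤ Subgroup.closure (S : Set G) ⊔ Gam G (i + 1) := by
  classical
  have hD' : (1 : ℝ) ≤ D := by exact_mod_cast hD
  induction i using Nat.strong_induction_on with
  | _ i ih =>
  intro t ht
  have ht0 : 0 < t := by linarith
  by_cases hi : i < 2
  · obtain ⟨S, h1, h2, h3⟩ := gens f hf i
    refine ⟨S, ?_, h2, h3⟩
    have h4 : (S.card : ℝ) ≤ (m : ℝ) ^ (i + 1) := by exact_mod_cast h1
    refine h4.trans ?_
    have h5 : (m : ℝ) ≤ t * Real.exp (m / t) := by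
      have h6 := Real.add_one_le_exp ((m : ℝ) / t)
      calc (m : ℝ) = t * ((m : ℝ) / t) := by field_simp
        _ ≤ t * Real.exp (m / t) := mul_le_mul_of_nonneg_left (by linarith) ht0.le
    have h7 : (m : ℝ) ^ (i + 1) ≤ t ^ (i + 1) * Real.exp (2 * (D * m) / t) := by
      calc (m : ℝ) ^ (i + 1) ≤ (t * Real.exp (m / t)) ^ (i + 1) :=
            pow_le_pow_left₀ (by positivity) h5 _
        _ = t ^ (i + 1) * Real.exp ((i + 1 : ℕ) * (m / t)) := by
            rw [mul_pow, ← Real.exp_nat_mul]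
        _ ≤ t ^ (i + 1) * Real.exp (2 * (D * m) / t) := by
            refine mul_le_mul_of_nonneg_left (Real.exp_le_exp.2 ?_) (by positivity)
            have h8 : ((i + 1 : ℕ) : ℝ) ≤ 2 := by exact_mod_cast (by omega : i + 1 ≤ 2)
            have h9 : (0 : ℝ) ≤ m / t := by positivity
            calc ((i + 1 : ℕ) : ℝ) * (m / t) ≤ 2 * (m / t) := mul_le_mul_of_nonneg_right h8 h9
              _ ≤ 2 * (D * (m / t)) := by
                  have : (m : ℝ) / t ≤ D * (m / t) := le_mul_of_one_le_left h9 hD'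
                  linarith
              _ = 2 * (D * m) / t := by ring
    refine h7.trans ?_
    have h10 : (1 : ℝ) ≤ (16 * D) ^ (i + 1) := one_le_pow₀ (by linarith)
    have h11 : 0 ≤ t ^ (i + 1) * Real.exp (2 * (D * m) / t) := by positivity
    calc t ^ (i + 1) * Real.exp (2 * (D * m) / t)
        ≤ (16 * D) ^ (i + 1) * (t ^ (i + 1) * Real.exp (2 * (D * m) / t)) :=
          le_mul_of_one_le_left h11 h10
      _ = _ := by ring
  · push Not at hi
    set k := (i + 1) / 2 with hkdef
    set ℓ := i / 2 with hℓdef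
    have hkl : k + ℓ = i := by omega
    have hki : k < i := by omega
    obtain ⟨S, hS1, hS2, hS3⟩ := ih k hki (2 * t) (by linarith)
    obtain ⟨T, hT1, hT2⟩ := cntMain D m ℓ
    let Q := G ⧸ Gam G (i + 1)
    let π : G →* Q := QuotientGroup.mk' (Gam G (i + 1))
    have hπ : Function.Surjective π := QuotientGroup.mk'_surjective _
    have hGQ : ∀ j, Gam Q j = (Gam G j).map π := by
      intro j
      change (⊤ : Subgroup Q).lowerCentralSeries j = ((⊤ : Subgroup G).lowerCentralSeries j).map π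
      rw [Subgroup.map_lowerCentralSeries, Subgroup.map_top_of_surjective π hπ]
    have hexpQ : ∀ x : Q, x ^ p = 1 := by
      intro x
      obtain ⟨g, rfl⟩ := hπ x
      rw [← map_pow, hexp, map_one]
    have hsatQ : Sat W Q := hsat.quot _
    have hbot : Gam Q (i + 1) = ⊥ := by
      rw [hGQ, Subgroup.map_eq_bot_iff, QuotientGroup.ker_mk']
    have hab : ∀ x ∈ Gam Q k, ∀ y ∈ Gam Q k, x * y = y * x := by
      intro x hx y hy
      rw [← commutatorElement_eq_one_iff_mul_comm, ← Subgroup.mem_bot, ← hbot]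
      have h1 : ⁅x, y⁆ ∈ Gam Q (k + k + 1) := lcc Q k k (Subgroup.commutator_mem_commutator hx hy)
      exact Subgroup.lowerCentralSeries_antitone _ (by omega) h1
    have hfQ : Subgroup.closure (Set.range fun j => π (f j)) = ⊤ := by
      have h1 : (Set.range fun j => π (f j)) = π '' (Set.range f) := by
        rw [← Set.range_comp]
        rfl
      rw [h1, ← MonoidHom.map_closure, hf, Subgroup.map_top_of_surjective π hπ]
    have hcl : Subgroup.closure ((S.image π : Finset Q) : Set Q) =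
        (Subgroup.closure (S : Set G)).map π := by
      rw [Finset.coe_image, ← MonoidHom.map_closure]
    obtain ⟨S', hS'1, hS'2, hS'3⟩ := step hexpQ (fun j => π (f j)) hfQ k ℓ ha hab
      (hrel Q hexpQ hsatQ (Gam Q k) hab) (by rw [hkl]; exact hbot) (S.image π)
      (by
        rw [hGQ, Finset.coe_image]
        rintro _ ⟨x, hx, rfl⟩
        exact ⟨x, hS2 hx, rfl⟩)
      (by
        rw [hcl, hGQ, hGQ, ← Subgroup.map_sup]
        exact Subgroup.map_mono hS3) T hT2
    rw [hkl] at hS'2 hS'3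
    have hlift : ∀ x ∈ S', ∃ g ∈ Gam G i, π g = x := by
      intro x hx
      have h1 : x ∈ Gam Q i := hS'2 hx
      rw [hGQ] at h1
      exact h1
    choose! s hs1 hs2 using hlift
    refine ⟨S'.image s, ?_, ?_, ?_⟩
    · have h1 : ((S'.image s).card : ℝ) ≤ (T.card : ℝ) * S.card := by
        have h2 : (S'.image s).card ≤ T.card * S.card :=
          Finset.card_image_le.trans (hS'1.trans (Nat.mul_le_mul_left _ Finset.card_image_le))
        exact_mod_cast h2
      have h3 : (T.card : ℝ) ≤ D ^ ℓ * ((2 * t) ^ ℓ * Real.exp (D * m / t)) := by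
        have h4 : (T.card : ℝ) ≤ (D : ℝ) ^ ℓ * ((D * m + ℓ).choose ℓ : ℝ) := by
          exact_mod_cast hT1
        refine h4.trans (mul_le_mul_of_nonneg_left ?_ (by positivity))
        have h5 := choose_le (D * m) ℓ t ht
        push_cast at h5
        exact h5
      calc ((S'.image s).card : ℝ) ≤ (T.card : ℝ) * S.card := h1
        _ ≤ (D ^ ℓ * ((2 * t) ^ ℓ * Real.exp (D * m / t))) *
            ((16 * D) ^ (k + 1) * (2 * t) ^ (k + 1) * Real.exp (2 * (D * m) / (2 * t))) :=
            mul_le_mul h3 hS1 (by positivity) (by positivity)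
        _ = (D ^ ℓ * (16 * D) ^ (k + 1) * 2 ^ (i + 1)) * t ^ (i + 1) *
            Real.exp (2 * (D * m) / t) := by
            have h6 : (2 : ℝ) * (D * m) / t = D * m / t + 2 * (D * m) / (2 * t) := by
              field_simp
              ring
            rw [h6, Real.exp_add, ← hkl]
            ring
        _ ≤ (16 * D) ^ (i + 1) * t ^ (i + 1) * Real.exp (2 * (D * m) / t) := by
            refine mul_le_mul_of_nonneg_right (mul_le_mul_of_nonneg_right ?_ (by positivity))
              (by positivity)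
            have h7 : (2 : ℝ) ^ (i + 1) ≤ 16 ^ ℓ := by
              have h8 : (16 : ℝ) ^ ℓ = 2 ^ (4 * ℓ) := by
                rw [pow_mul]
                norm_num
              rw [h8]
              exact pow_le_pow_right₀ (by norm_num) (by omega)
            calc (D : ℝ) ^ ℓ * (16 * D) ^ (k + 1) * 2 ^ (i + 1)
                ≤ (D : ℝ) ^ ℓ * (16 * D) ^ (k + 1) * 16 ^ ℓ :=
                  mul_le_mul_of_nonneg_left h7 (by positivity)
              _ = (16 * D) ^ (i + 1) := by
                  rw [← hkl]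
                  ring
    · intro x hx
      rw [Finset.mem_coe, Finset.mem_image] at hx
      obtain ⟨y, hy, rfl⟩ := hx
      exact hs1 y hy
    · intro x hx
      have h1 : π x ∈ Subgroup.closure (S' : Set Q) := by
        apply hS'3
        rw [hGQ]
        exact ⟨x, hx, rfl⟩
      have h2 : (S' : Set Q) = π '' ((S'.image s : Finset G) : Set G) := by
        ext y
        constructor
        · intro hy
          refine ⟨s y, ?_, hs2 y hy⟩
          rw [Finset.coe_image]
          exact ⟨y, hy, rfl⟩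
        · rintro ⟨z, hz, rfl⟩
          rw [Finset.coe_image] at hz
          obtain ⟨y, hy, rfl⟩ := hz
          rw [hs2 y hy]
          exact hy
      rw [h2, ← MonoidHom.map_closure] at h1
      obtain ⟨y, hy, hyx⟩ := h1
      have h3 : y⁻¹ * x ∈ Gam G (i + 1) := by
        rw [← QuotientGroup.eq]
        exact hyx
      have h4 : x = y * (y⁻¹ * x) := by group
      rw [h4]
      exact mul_mem (Subgroup.mem_sup_left hy) (Subgroup.mem_sup_right h3)

/-- The class. -/
theorem class_bound {p d : ℕ} [Fact p.Prime] (W : Set (FreeGroup ℕ))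
    {a : Equiv.Perm (Fin d) → ℕ} (ha : ∃ σ, ¬ p ∣ a σ)
    (hrel : ∀ (G : Type) [Group G] [Finite G], (∀ g : G, g ^ p = 1) → Sat W G →
      ∀ (V : Subgroup G) [V.Normal], (∀ x ∈ V, ∀ y ∈ V, x * y = y * x) → VRel d V a) :
    ∃ C : ℕ, ∀ (m : ℕ) (G : Type) [Group G] [Finite G], (∀ g : G, g ^ p = 1) → Sat W G →
      (∃ f : Fin m → G, Subgroup.closure (Set.range f) = ⊤) → Gam G (2 * C * (m + 1)) = ⊥ := by
  classical
  obtain ⟨C, hC⟩ := bot p d
  refine ⟨C, ?_⟩
  intro m G _ _ hexp hsat hf
  have hpg : IsPGroup p G := fun g => ⟨1, by rw [pow_one]; exact hexp g⟩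
  have hnil : Group.IsNilpotent G := hpg.isNilpotent
  have hex : ∃ n, Gam G n = ⊥ := Subgroup.nilpotent_iff_lowerCentralSeries.1 hnil
  set n := Nat.find hex with hn
  have hn1 : Gam G n = ⊥ := Nat.find_spec hex
  have hab : ∀ x ∈ Gam G (n / 2), ∀ y ∈ Gam G (n / 2), x * y = y * x := by
    intro x hx y hy
    rw [← commutatorElement_eq_one_iff_mul_comm, ← Subgroup.mem_bot, ← hn1]
    have h1 : ⁅x, y⁆ ∈ Gam G (n / 2 + n / 2 + 1) :=
      lcc G (n / 2) (n / 2) (Subgroup.commutator_mem_commutator hx hy)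
    exact Subgroup.lowerCentralSeries_antitone _ (by omega) h1
  have h2 := hC m G hexp hf (Gam G (n / 2)) hab a ha (hrel G hexp hsat _ hab) (n / 2) le_rfl
  have h3 : n ≤ n / 2 + C * (m + 1) := Nat.find_min' hex h2
  have h4 : n ≤ 2 * C * (m + 1) := by
    have h5 : 2 * C * (m + 1) = 2 * (C * (m + 1)) := by ring
    omega
  rw [eq_bot_iff, ← hn1]
  exact Subgroup.lowerCentralSeries_antitone _ h4

/-- The order. -/
theorem order_bound {p D : ℕ} [Fact p.Prime] (hD : 1 ≤ D) (W : Set (FreeGroup ℕ))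
    {a : Equiv.Perm (Fin (D + 1)) → ℕ} (ha : ∃ σ, ¬ p ∣ a σ)
    (hrel : ∀ (G : Type) [Group G] [Finite G], (∀ g : G, g ^ p = 1) → Sat W G →
      ∀ (V : Subgroup G) [V.Normal], (∀ x ∈ V, ∀ y ∈ V, x * y = y * x) → VRel (D + 1) V a)
    {m c : ℕ} {G : Type} [Group G] [Finite G] (hexp : ∀ g : G, g ^ p = 1) (hsat : Sat W G)
    (f : Fin m → G) (hf : Subgroup.closure (Set.range f) = ⊤) (hc : Gam G c = ⊥) :
    Nat.card G ≤ p ^ (c * ((16 * D) ^ c * 9 ^ (D * m))) := by
  have hp : 0 < p := (Fact.out : p.Prime).pos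
  have key : ∀ k : ℕ, k ≤ c → Nat.card G ≤ p ^ (k * ((16 * D) ^ c * 9 ^ (D * m))) *
      Nat.card (Gam G k) := by
    intro k
    induction k with
    | zero =>
      intro _
      rw [zero_mul, pow_zero, one_mul]
      change Nat.card G ≤ Nat.card (⊤ : Subgroup G)
      rw [Subgroup.card_top]
    | succ k ih =>
      intro hk
      obtain ⟨S, hSc, hS, hSG⟩ := layer hD W ha hrel hexp hsat f hf k 1 le_rfl
      have hSc' : S.card ≤ (16 * D) ^ c * 9 ^ (D * m) := by
        have h1 : Real.exp (2 * (D * m) / 1) ≤ 9 ^ (D * m) := by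
          have h2 : Real.exp (2 * (D * m) / 1) = (Real.exp 1 ^ 2) ^ (D * m) := by
            rw [← pow_mul, ← Real.exp_nat_mul]
            congr 1
            push_cast
            ring
          rw [h2]
          refine pow_le_pow_left₀ (by positivity) ?_ _
          have h3 : Real.exp 1 < 3 := Real.exp_one_lt_three
          have h4 := Real.exp_pos 1
          nlinarith
        have h5 : (1 : ℝ) ≤ 16 * D := by
          have : (1 : ℝ) ≤ D := by exact_mod_cast hD
          linarith
        have h6 : ((16 : ℝ) * D) ^ (k + 1) ≤ (16 * D) ^ c := pow_le_pow_right₀ h5 hk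
        have h7 : (S.card : ℝ) ≤ (16 * D) ^ c * 9 ^ (D * m) := by
          refine hSc.trans ?_
          rw [one_pow, mul_one]
          exact mul_le_mul h6 h1 (Real.exp_pos _).le (by positivity)
        exact_mod_cast h7
      refine (ih (by omega)).trans ?_
      rw [add_mul, one_mul, pow_add, mul_assoc]
      refine Nat.mul_le_mul_left _ ?_
      calc Nat.card (Gam G k)
          ≤ Nat.card (Subgroup.closure (S : Set G) ⊔ Gam G (k + 1) : Subgroup G) :=
            Subgroup.card_le_of_le hSG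
        _ ≤ p ^ S.card * Nat.card (Gam G (k + 1)) := card_layer hp hexp k S hS
        _ ≤ p ^ ((16 * D) ^ c * 9 ^ (D * m)) * Nat.card (Gam G (k + 1)) :=
            Nat.mul_le_mul_right _ (Nat.pow_le_pow_right hp hSc')
  have h1 := key c le_rfl
  have h2 : Nat.card (Gam G c) = 1 := by
    rw [hc, Subgroup.card_bot]
  rw [h2, mul_one] at h1
  exact h1

/-- The dichotomy. -/
theorem main (p : ℕ) [Fact p.Prime] (W : Set (FreeGroup ℕ)) :
    (∀ m : ℕ, ∃ (G : Type) (_ : Group G) (_ : Finite G), (∀ g : G, g ^ p = 1) ∧ Sat W G ∧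
      (∃ f : Fin (m + 1) → G, Subgroup.closure (Set.range f) = ⊤) ∧
      p ^ m.factorial ≤ Nat.card G) ∨
    (∃ C : ℕ, ∀ (m : ℕ) (G : Type) [Group G] [Finite G], (∀ g : G, g ^ p = 1) → Sat W G →
      (∃ f : Fin m → G, Subgroup.closure (Set.range f) = ⊤) →
      Gam G (C * (m + 1)) = ⊥ ∧ Nat.card G ≤ p ^ (C ^ (m + 1))) := by
  by_cases h : ∀ m : ℕ, ∃ (G : Type) (_ : Group G) (_ : Finite G), (∀ g : G, g ^ p = 1) ∧
      Sat W G ∧ (∃ f : Fin (m + 1) → G, Subgroup.closure (Set.range f) = ⊤) ∧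
      p ^ m.factorial ≤ Nat.card G
  · exact Or.inl h
  · right
    push Not at h
    obtain ⟨d₀, hd₀⟩ := h
    have hp : p.Prime := Fact.out
    -- a degree of the form `D + 1`, `D ≥ 1`
    obtain ⟨D, hD, hd⟩ : ∃ D : ℕ, 1 ≤ D ∧ ∀ (H : Type) [Group H] [Finite H],
        (∀ h : H, h ^ p = 1) → Sat W H →
        (∃ f : Fin (D + 1 + 1) → H, Subgroup.closure (Set.range f) = ⊤) →
        Nat.card H < p ^ (D + 1).factorial := by
      by_cases h2 : 2 ≤ d₀
      · refine ⟨d₀ - 1, by omega, ?_⟩
        intro H _ _ h3 h4 h5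
        have h6 : d₀ - 1 + 1 = d₀ := by omega
        rw [h6] at h5 ⊢
        exact hd₀ H inferInstance inferInstance h3 h4 h5
      · -- all groups of the class are trivial
        have h6 : d₀.factorial = 1 := by
          interval_cases d₀ <;> rfl
        have htriv : ∀ (H : Type) [Group H] [Finite H], (∀ h : H, h ^ p = 1) → Sat W H →
            ∀ x : H, x = 1 := by
          intro H _ _ h3 h4 x
          have h7 := hd₀ (Subgroup.zpowers x) inferInstance inferInstance
            (fun y => Subtype.ext (h3 y)) (h4.sub _)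
            ⟨fun _ => ⟨x, Subgroup.mem_zpowers x⟩, by
              rw [Set.range_const]
              have h8 := Subgroup.closure_closure_coe_preimage (k := {x})
              rw [eq_top_iff]
              rintro ⟨y, hy⟩ _
              obtain ⟨n, rfl⟩ := Subgroup.mem_zpowers_iff.1 hy
              rw [← Subgroup.zpowers_eq_closure, Subgroup.mem_zpowers_iff]
              exact ⟨n, rfl⟩⟩
          rw [h6, pow_one] at h7
          by_contra hx
          have h9 : orderOf x = p := orderOf_eq_prime (h3 x) hx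
          rw [Nat.card_zpowers, h9] at h7
          exact lt_irrefl _ h7
        refine ⟨1, le_rfl, ?_⟩
        intro H _ _ h3 h4 _
        have h7 : Nat.card H = 1 := by
          rw [Nat.card_eq_one_iff_unique]
          exact ⟨⟨fun x y => by rw [htriv H h3 h4 x, htriv H h3 h4 y]⟩, ⟨1⟩⟩
        rw [h7]
        exact Nat.one_lt_pow (Nat.factorial_ne_zero _) hp.one_lt
    obtain ⟨a, ha, hrel⟩ := uniform W p (D + 1) hd
    obtain ⟨C, hC⟩ := class_bound W ha hrel
    refine ⟨2 * C + (32 * D) ^ (2 * C) * 9 ^ D, ?_⟩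
    intro m G _ _ hexp hsat hf
    have h1 := hC m G hexp hsat hf
    obtain ⟨f, hf⟩ := hf
    refine ⟨?_, ?_⟩
    · rw [eq_bot_iff, ← h1]
      exact Subgroup.lowerCentralSeries_antitone _ (Nat.mul_le_mul_right _ (Nat.le_add_right _ _))
    · refine (order_bound hD W ha hrel hexp hsat f hf h1).trans
        (Nat.pow_le_pow_right hp.pos ?_)
      set c := 2 * C * (m + 1) with hcdef
      have h2 : c ≤ 2 ^ c := Nat.lt_two_pow_self.le
      calc c * ((16 * D) ^ c * 9 ^ (D * m)) ≤ 2 ^ c * ((16 * D) ^ c * 9 ^ (D * m)) :=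
            Nat.mul_le_mul_right _ h2
        _ = (32 * D) ^ c * 9 ^ (D * m) := by
            rw [← mul_assoc, ← mul_pow]
            congr 2
            ring
        _ ≤ (32 * D) ^ c * 9 ^ (D * (m + 1)) := by
            refine Nat.mul_le_mul_left _ (Nat.pow_le_pow_right (by norm_num) ?_)
            exact Nat.mul_le_mul_left _ (Nat.le_succ m)
        _ = ((32 * D) ^ (2 * C) * 9 ^ D) ^ (m + 1) := by
            rw [mul_pow ((32 * D) ^ (2 * C)), ← pow_mul, ← pow_mul]
        _ ≤ (2 * C + (32 * D) ^ (2 * C) * 9 ^ D) ^ (m + 1) :=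
            Nat.pow_le_pow_left (Nat.le_add_left _ _) _

end Pool.Agent.Helper82.OG
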