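import Pool.Agent.Helper88.RB.M_BOT

set_option autoImplicit false

/-! # Order gap: a multilinear relation valid in all groups of the class -/

namespace Pool.Agent.Helper82.OG

open Pool.Agent.Helper83.RB
open scoped BigOperators commutatorElement

/-- The group satisfies the laws `w = 1`, `w ∈ W`. -/
def Sat (W : Set (FreeGroup ℕ)) (G : Type) [Group G] : Prop :=
  ∀ w ∈ W, ∀ φ : FreeGroup ℕ →* G, φ w = 1

theorem Sat.sub {W : Set (FreeGroup ℕ)} {G : Type} [Group G] (h : Sat W G) (H : Subgroup G) :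
    Sat W H := by
  intro w hw φ
  apply Subtype.ext
  exact h w hw (H.subtype.comp φ)

theorem Sat.prod {W : Set (FreeGroup ℕ)} {G H : Type} [Group G] [Group H] (hG : Sat W G)
    (hH : Sat W H) : Sat W (G × H) := by
  intro w hw φ
  apply Prod.ext
  · exact hG w hw ((MonoidHom.fst G H).comp φ)
  · exact hH w hw ((MonoidHom.snd G H).comp φ)

theorem Sat.quot {W : Set (FreeGroup ℕ)} {G : Type} [Group G] (h : Sat W G) (N : Subgroup G)
    [N.Normal] : Sat W (G ⧸ N) := by
  intro w hw φ
  choose s hs using fun n : ℕ => QuotientGroup.mk'_surjective N (φ (FreeGroup.of n))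
  have h1 : φ = (QuotientGroup.mk' N).comp (FreeGroup.lift s) := by
    ext n
    rw [MonoidHom.comp_apply, FreeGroup.lift_apply_of, hs]
  rw [h1, MonoidHom.comp_apply, h w hw, map_one]

/-- The product of the conjugates of `v`. -/
noncomputable def mprod {d : ℕ} {G : Type} [Group G] (v : G) (g : Fin d → G)
    (a : Equiv.Perm (Fin d) → ℕ) : G :=
  ((Finset.univ : Finset (Equiv.Perm (Fin d))).toList.map fun σ =>
    ((List.ofFn fun i => g (σ i)).prod * v * ((List.ofFn fun i => g (σ i)).prod)⁻¹) ^ a σ).prod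

theorem mprod_map {d : ℕ} {G H : Type} [Group G] [Group H] (φ : G →* H) (v : G) (g : Fin d → G)
    (a : Equiv.Perm (Fin d) → ℕ) : φ (mprod v g a) = mprod (φ v) (fun i => φ (g i)) a := by
  unfold mprod
  rw [map_list_prod, List.map_map]
  congr 1
  apply List.map_congr_left
  intro σ _
  simp only [Function.comp_apply, map_pow, map_mul, map_inv, map_list_prod, List.map_ofFn]
  rfl

theorem mprod_core {p : ℕ} [Fact p.Prime] {G W : Type} [Group G] [AddCommGroup W]
    [Module (ZMod p) W] (ρ : Representation (ZMod p) G W) (e : W → G)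
    (eadd : ∀ a b, e (a + b) = e a * e b) (eρ : ∀ g w, e (ρ g w) = g * e w * g⁻¹)
    {d : ℕ} (g : Fin d → G) (w : W) (a : Equiv.Perm (Fin d) → ℕ) :
    mprod (e w) g a =
      e (∑ σ, ((a σ : ℕ) : ZMod p) • ρ (List.ofFn fun i => g (σ i)).prod w) := by
  have e0 : e 0 = 1 := by
    have h := eadd 0 0
    rw [add_zero] at h
    exact (left_eq_mul.mp h)
  have enat : ∀ (n : ℕ) w, e (n • w) = e w ^ n := by
    intro n w
    induction n with
    | zero => rw [zero_smul, e0, pow_zero]
    | succ n ih => rw [succ_nsmul, eadd, ih, pow_succ]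
  have elist : ∀ l : List W, e l.sum = (l.map e).prod := by
    intro l
    induction l with
    | nil => simpa using e0
    | cons x l ih => rw [List.sum_cons, eadd, ih, List.map_cons, List.prod_cons]
  rw [← Finset.sum_map_toList, elist, List.map_map]
  unfold mprod
  congr 1
  apply List.map_congr_left
  intro σ _
  change _ = e (((a σ : ℕ) : ZMod p) • ρ (List.ofFn fun i => g (σ i)).prod w)
  rw [Nat.cast_smul_eq_nsmul, enat, eρ]

/-- The relations modulo the derived subgroup of the normal closure of `f 0`. -/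
def Rel (p : ℕ) {d : ℕ} {G : Type} [Group G] (f : Fin (d + 1) → G) :
    Set (Equiv.Perm (Fin d) → ZMod p) :=
  {a | mprod (f 0) (fun i => f i.succ) (fun σ => (a σ).val) ∈
    ⁅Subgroup.normalClosure {f 0}, Subgroup.normalClosure {f 0}⁆}

theorem Rel.map (p : ℕ) {d : ℕ} {G H : Type} [Group G] [Group H] (φ : G →* H)
    (f : Fin (d + 1) → G) : Rel p f ⊆ Rel p (fun i => φ (f i)) := by
  intro a ha
  have h1 : Subgroup.normalClosure {f 0} ≤
      (Subgroup.normalClosure {φ (f 0)}).comap φ := by
    apply Subgroup.normalClosure_le_normal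
    rw [Set.singleton_subset_iff]
    exact Subgroup.subset_normalClosure (Set.mem_singleton _)
  have h2 : ⁅Subgroup.normalClosure {f 0}, Subgroup.normalClosure {f 0}⁆ ≤
      (⁅Subgroup.normalClosure {φ (f 0)}, Subgroup.normalClosure {φ (f 0)}⁆ :
        Subgroup H).comap φ := by
    rw [Subgroup.commutator_le]
    intro x hx y hy
    rw [Subgroup.mem_comap, map_commutatorElement]
    exact Subgroup.commutator_mem_commutator (h1 hx) (h1 hy)
  have h3 := h2 ha
  rw [Subgroup.mem_comap, mprod_map] at h3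
  exact h3

theorem Rel.nonzero {p : ℕ} [Fact p.Prime] {d : ℕ} {G : Type} [Group G] [Finite G]
    (hexp : ∀ g : G, g ^ p = 1) (hcard : Nat.card G < p ^ d.factorial) (f : Fin (d + 1) → G) :
    ∃ a ∈ Rel p f, a ≠ 0 := by
  classical
  set N : Subgroup G := Subgroup.normalClosure {f 0} with hN
  let Q := G ⧸ ⁅N, N⁆
  let π : G →* Q := QuotientGroup.mk' ⁅N, N⁆
  have hexpQ : ∀ x : Q, x ^ p = 1 := by
    intro x
    obtain ⟨g, rfl⟩ := QuotientGroup.mk'_surjective _ x
    rw [← map_pow, hexp, map_one]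
  let V : Subgroup Q := N.map π
  have hVn : V.Normal := Subgroup.Normal.map inferInstance π (QuotientGroup.mk'_surjective _)
  have hV : ∀ x ∈ V, ∀ y ∈ V, x * y = y * x := by
    rintro x ⟨x, hx, rfl⟩ y ⟨y, hy, rfl⟩
    rw [← commutatorElement_eq_one_iff_mul_comm, ← map_commutatorElement]
    exact (QuotientGroup.eq_one_iff _).2 (Subgroup.commutator_mem_commutator hx hy)
  obtain ⟨W, _, _, ρ, e, eadd, einj, eV, eρ⟩ := Pool.Agent.Helper88.RB.core hexpQ V hV
  have hv : π (f 0) ∈ V := ⟨f 0, Subgroup.subset_normalClosure (Set.mem_singleton _), rfl⟩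
  obtain ⟨w, hw⟩ := (eV _).1 hv
  have e0 : e 0 = 1 := by
    have h := eadd 0 0
    rw [add_zero] at h
    exact (left_eq_mul.mp h)
  have hWfin : Finite W := Finite.of_injective e einj
  have hWcard : Nat.card W ≤ Nat.card G :=
    (Nat.card_le_card_of_injective e einj).trans
      (Nat.card_le_card_of_surjective π (QuotientGroup.mk'_surjective _))
  let g : Fin d → Q := fun i => π (f i.succ)
  let L : (Equiv.Perm (Fin d) → ZMod p) →ₗ[ZMod p] W :=
    ∑ σ : Equiv.Perm (Fin d),
      (LinearMap.proj σ : (Equiv.Perm (Fin d) → ZMod p) →ₗ[ZMod p] ZMod p).smulRight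
        (ρ (List.ofFn fun i => g (σ i)).prod w)
  have hL : ∀ a, L a = ∑ σ, a σ • ρ (List.ofFn fun i => g (σ i)).prod w := by
    intro a
    simp [L]
  have hnot : ¬ Function.Injective L := by
    intro hinj
    have h1 := Nat.card_le_card_of_injective L hinj
    have h2 : Nat.card (Equiv.Perm (Fin d) → ZMod p) = p ^ d.factorial := by
      rw [Nat.card_fun, Nat.card_zmod, Nat.card_eq_fintype_card, Fintype.card_perm,
        Fintype.card_fin]
    rw [h2] at h1
    omega
  have hker : L.ker ≠ ⊥ := fun h => hnot (LinearMap.ker_eq_bot.1 h)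
  obtain ⟨a, ha, ha0⟩ := Submodule.exists_mem_ne_zero_of_ne_bot hker
  refine ⟨a, ?_, ha0⟩
  have h1 : L a = 0 := ha
  change mprod (f 0) (fun i => f i.succ) (fun σ => (a σ).val) ∈ ⁅N, N⁆
  rw [← QuotientGroup.eq_one_iff]
  change π _ = 1
  rw [mprod_map, ← hw, mprod_core ρ e eadd eρ, ← e0]
  congr 1
  rw [← h1, hL]
  refine Finset.sum_congr rfl fun σ _ => ?_
  rw [ZMod.natCast_zmod_val]

/-- If all finite `(d + 1)`-generator groups of the class have order less than `p ^ d!`, then a
single multilinear relation of degree `d` holds in all abelian normal subgroups of all groups of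
the class. -/
theorem uniform (W : Set (FreeGroup ℕ)) (p : ℕ) [Fact p.Prime] (d : ℕ)
    (hd : ∀ (H : Type) [Group H] [Finite H], (∀ h : H, h ^ p = 1) → Sat W H →
      (∃ f : Fin (d + 1) → H, Subgroup.closure (Set.range f) = ⊤) →
      Nat.card H < p ^ d.factorial) :
    ∃ a : Equiv.Perm (Fin d) → ℕ, (∃ σ, ¬ p ∣ a σ) ∧
      ∀ (G : Type) [Group G] [Finite G], (∀ g : G, g ^ p = 1) → Sat W G →
      ∀ (V : Subgroup G) [V.Normal], (∀ x ∈ V, ∀ y ∈ V, x * y = y * x) → VRel d V a := by
  classical
  -- the sizes of the relation sets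
  let P : ℕ → Prop := fun n => ∃ (H : Type) (_ : Group H) (_ : Finite H),
    (∀ h : H, h ^ p = 1) ∧ Sat W H ∧ ∃ f : Fin (d + 1) → H,
      Subgroup.closure (Set.range f) = ⊤ ∧ (Rel p f).ncard = n
  have hP : ∃ n, P n := by
    refine ⟨_, PUnit, inferInstance, inferInstance, fun _ => rfl, fun _ _ _ => rfl,
      fun _ => PUnit.unit, ?_, rfl⟩
    exact Subsingleton.elim _ _
  obtain ⟨H₀, i₁, i₂, hexp₀, hsat₀, f₀, hf₀, hn₀⟩ := Nat.find_spec hP
  have hmin : ∀ n, P n → Nat.find hP ≤ n := fun n h => Nat.find_min' hP h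
  obtain ⟨a, ha, ha0⟩ := Rel.nonzero hexp₀ (hd H₀ hexp₀ hsat₀ ⟨f₀, hf₀⟩) f₀
  have key : ∀ (H : Type) [Group H] [Finite H], (∀ h : H, h ^ p = 1) → Sat W H →
      ∀ f : Fin (d + 1) → H, a ∈ Rel p f := by
    intro H _ _ hexp hsat f
    let K : Subgroup (H₀ × H) := Subgroup.closure (Set.range fun i => (f₀ i, f i))
    let k : Fin (d + 1) → K := fun i => ⟨(f₀ i, f i), Subgroup.subset_closure ⟨i, rfl⟩⟩
    have hk : Subgroup.closure (Set.range k) = ⊤ := by
      have h1 : Set.range k = (K.subtype) ⁻¹' (Set.range fun i => (f₀ i, f i)) := by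
        ext x
        constructor
        · rintro ⟨i, rfl⟩
          exact ⟨i, rfl⟩
        · rintro ⟨i, hi⟩
          exact ⟨i, Subtype.ext hi⟩
      rw [h1]
      exact Subgroup.closure_closure_coe_preimage
    have h1 : Rel p k ⊆ Rel p f₀ := Rel.map p ((MonoidHom.fst H₀ H).comp K.subtype) k
    have h2 : Rel p k ⊆ Rel p f := Rel.map p ((MonoidHom.snd H₀ H).comp K.subtype) k
    have h3 : Nat.find hP ≤ (Rel p k).ncard := by
      apply hmin
      refine ⟨K, inferInstance, inferInstance, ?_, (hsat₀.prod hsat).sub K, k, hk, rfl⟩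
      intro x
      apply Subtype.ext
      apply Prod.ext
      · exact hexp₀ _
      · exact hexp _
    have h4 : Rel p k = Rel p f₀ := Set.eq_of_subset_of_ncard_le h1 (by rw [hn₀]; exact h3)
    exact h2 (by rw [h4]; exact ha)
  refine ⟨fun σ => (a σ).val, ?_, ?_⟩
  · by_contra hcon
    push Not at hcon
    apply ha0
    funext σ
    have h1 := hcon σ
    rw [← ZMod.natCast_eq_zero_iff, ZMod.natCast_zmod_val] at h1
    exact h1
  · intro G _ _ hexp hsat V hVn hV g v hv
    have h1 := key G hexp hsat (Fin.cons v g)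
    have h2 : mprod v g (fun σ => (a σ).val) ∈
        ⁅Subgroup.normalClosure {v}, Subgroup.normalClosure {v}⁆ := h1
    have h3 : Subgroup.normalClosure {v} ≤ V := by
      apply Subgroup.normalClosure_le_normal
      rw [Set.singleton_subset_iff]
      exact hv
    have h4 : (⁅Subgroup.normalClosure {v}, Subgroup.normalClosure {v}⁆ : Subgroup G) ≤ ⊥ := by
      rw [Subgroup.commutator_le]
      intro x hx y hy
      rw [Subgroup.mem_bot, commutatorElement_eq_one_iff_mul_comm]
      exact hV x (h3 hx) y (h3 hy)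
    exact Subgroup.mem_bot.1 (h4 h2)

end Pool.Agent.Helper82.OG
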