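import Pool.Agent.Helper82.OG.Rel
import Pool.Agent.Helper82.OG.Cnt

set_option autoImplicit false

/-! # Order gap: the number of generators of the factors of the lower central series -/

namespace Pool.Agent.Helper82.OG

open Pool.Agent.Helper83.RB
open Pool.Agent.Helper42.RB
open scoped BigOperators commutatorElement

/-- a multilinear map which vanishes on `S` vanishes on the span of `S` -/
theorem vanish {R M M' : Type} [CommSemiring R] [AddCommMonoid M] [AddCommMonoid M']
    [Module R M] [Module R M'] {d : ℕ} (F : MultilinearMap R (fun _ : Fin d => M) M') (S : Set M)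
    (hF : ∀ v : Fin d → M, (∀ i, v i ∈ S) → F v = 0) :
    ∀ v : Fin d → M, (∀ i, v i ∈ Submodule.span R S) → F v = 0 := by
  have key : ∀ s : Finset (Fin d), ∀ v : Fin d → M, (∀ i ∈ s, v i ∈ Submodule.span R S) →
      (∀ i, i ∉ s → v i ∈ S) → F v = 0 := by
    intro s
    induction s using Finset.induction_on with
    | empty => intro v _ h; exact hF v (fun i => h i (by simp))
    | insert j s hj ih =>
      intro v h1 h2
      have h3 : ∀ w ∈ Submodule.span R S, F (Function.update v j w) = 0 := by
        intro w hw
        induction hw using Submodule.span_induction with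
        | mem w hw =>
          apply ih
          · intro i hi
            have hij : i ≠ j := fun h => hj (h ▸ hi)
            rw [Function.update_of_ne hij]
            exact h1 i (Finset.mem_insert_of_mem hi)
          · intro i hi
            by_cases hij : i = j
            · subst hij
              rw [Function.update_self]
              exact hw
            · rw [Function.update_of_ne hij]
              exact h2 i (by simp [hij, hi])
        | zero => exact F.map_update_zero v j
        | add x y _ _ hx hy => rw [F.map_update_add, hx, hy, add_zero]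
        | smul c x _ hx => rw [F.map_update_smul, hx, smul_zero]
      have h4 := h3 (v j) (h1 j (Finset.mem_insert_self j s))
      rwa [Function.update_eq_self] at h4
  intro v hv
  exact key Finset.univ v (fun i _ => hv i) (fun i hi => absurd (Finset.mem_univ i) hi)

/-- The algebra spanned by a representation with a multilinear relation satisfies an identity. -/
theorem pideg {p d : ℕ} [Fact p.Prime] {N W : Type} [Group N] [AddCommGroup W]
    [Module (ZMod p) W] (ρ : Representation (ZMod p) N W) (hML : MLRel p d ρ) :
    PIdeg p d (Algebra.adjoin (ZMod p) (Set.range ρ) : Subalgebra _ _) := by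
  obtain ⟨a, ha0, hrel⟩ := hML
  let B : Subalgebra (ZMod p) (Module.End (ZMod p) W) := Algebra.adjoin (ZMod p) (Set.range ρ)
  have hspan : ∀ x : B, (x : Module.End (ZMod p) W) ∈ Submodule.span (ZMod p) (Set.range ρ) := by
    intro x
    have h1 : (x : Module.End (ZMod p) W) ∈ Subalgebra.toSubmodule B := x.2
    have h2 : Subalgebra.toSubmodule B =
        Submodule.span (ZMod p) (Submonoid.closure (Set.range ρ) : Set (Module.End (ZMod p) W)) :=
      Algebra.adjoin_eq_span (ZMod p) (Set.range ρ)
    have h3 : (Submonoid.closure (Set.range ρ)) = MonoidHom.mrange ρ := by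
      rw [← MonoidHom.coe_mrange, Submonoid.closure_eq]
    rw [h2, h3, MonoidHom.coe_mrange] at h1
    exact h1
  let F : MultilinearMap (ZMod p) (fun _ : Fin d => Module.End (ZMod p) W)
      (Module.End (ZMod p) W) :=
    ∑ σ : Equiv.Perm (Fin d), a σ •
      (MultilinearMap.mkPiAlgebraFin (ZMod p) d (Module.End (ZMod p) W)).domDomCongr σ
  have hFa : ∀ v : Fin d → Module.End (ZMod p) W,
      F v = ∑ σ : Equiv.Perm (Fin d), a σ • (List.ofFn fun i => v (σ i)).prod := by
    intro v
    simp only [F, sum_apply, smul_apply,
      MultilinearMap.domDomCongr_apply, MultilinearMap.mkPiAlgebraFin_apply]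
  have hF0 : ∀ v : Fin d → Module.End (ZMod p) W,
      (∀ i, v i ∈ Submodule.span (ZMod p) (Set.range ρ)) → F v = 0 := by
    apply vanish
    intro v hv
    choose g hg using hv
    rw [hFa]
    rw [← hrel g]
    refine Finset.sum_congr rfl fun σ _ => ?_
    congr 1
    rw [map_list_prod, List.map_ofFn]
    congr 2
    funext i
    simp [hg]
  refine ⟨a, ha0, fun x => ?_⟩
  have h1 := hF0 (fun i => (x i : Module.End (ZMod p) W)) (fun i => hspan (x i))
  rw [hFa] at h1
  apply Subtype.val_injective
  rw [← Subalgebra.coe_val, map_sum, map_zero]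
  refine Eq.trans (Finset.sum_congr rfl fun σ _ => ?_) h1
  rw [map_smul, map_list_prod, List.map_ofFn]
  rfl

theorem mlrel_of_vrel {p d : ℕ} [Fact p.Prime] {G W : Type} [Group G] [AddCommGroup W]
    [Module (ZMod p) W] (ρ : Representation (ZMod p) G W) (e : W → G)
    (eadd : ∀ a b, e (a + b) = e a * e b) (einj : Function.Injective e)
    (eρ : ∀ g w, e (ρ g w) = g * e w * g⁻¹) {V : Subgroup G} (eV : ∀ w, e w ∈ V)
    {a : Equiv.Perm (Fin d) → ℕ} (ha : ∃ σ, ¬ p ∣ a σ) (hR : VRel d V a) : MLRel p d ρ := by
  refine ⟨fun σ => (a σ : ZMod p), ?_, ?_⟩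
  · obtain ⟨σ, hσ⟩ := ha
    intro h
    apply hσ
    have := congrFun h σ
    exact (ZMod.natCast_eq_zero_iff _ _).1 this
  · intro g
    apply LinearMap.ext
    intro w
    have e0 : e 0 = 1 := by
      have h := eadd 0 0
      rw [add_zero] at h
      exact (left_eq_mul.mp h)
    apply einj
    have h := hR g (e w) (eV w)
    have h2 := mprod_core ρ e eadd eρ g w a
    rw [LinearMap.sum_apply, LinearMap.zero_apply, e0]
    simp only [LinearMap.smul_apply]
    rw [← h2]
    exact h

/-- The step: from generators of `Γ k` modulo `Γ (k + 1)` to generators of `Γ (k + ℓ)`. -/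
theorem step {p d m : ℕ} [Fact p.Prime] {G : Type} [Group G] (hexp : ∀ g : G, g ^ p = 1)
    (f : Fin m → G) (hf : Subgroup.closure (Set.range f) = ⊤) (k ℓ : ℕ)
    {a : Equiv.Perm (Fin d) → ℕ} (ha : ∃ σ, ¬ p ∣ a σ)
    (hk : ∀ x ∈ Gam G k, ∀ y ∈ Gam G k, x * y = y * x) (hR : VRel d (Gam G k) a)
    (hbot : Gam G (k + ℓ + 1) = ⊥) (S : Finset G) (hS : (S : Set G) ⊆ (Gam G k : Set G))
    (hSG : Gam G k ≤ Subgroup.closure (S : Set G) ⊔ Gam G (k + 1))
    (T : Finset (List (Fin m))) (hT : ∀ w : List (Fin m), w.length = ℓ → w ∈ T ∨ DDiv d w) :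
    ∃ S' : Finset G, S'.card ≤ T.card * S.card ∧ (S' : Set G) ⊆ (Gam G (k + ℓ) : Set G) ∧
      Gam G (k + ℓ) ≤ Subgroup.closure (S' : Set G) := by
  classical
  obtain ⟨W, _, _, ρ, e, eadd, einj, eV, eρ⟩ := Pool.Agent.Helper88.RB.core hexp (Gam G k) hk
  have e0 : e 0 = 1 := by
    have h := eadd 0 0
    rw [add_zero] at h
    exact (left_eq_mul.mp h)
  have eneg : ∀ w, e (-w) = (e w)⁻¹ := by
    intro w
    apply eq_inv_of_mul_eq_one_left
    rw [← eadd, neg_add_cancel, e0]
  have enat : ∀ (n : ℕ) w, e (n • w) = e w ^ n := by
    intro n w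
    induction n with
    | zero => rw [zero_smul, e0, pow_zero]
    | succ n ih => rw [succ_nsmul, eadd, ih, pow_succ]
  have hML : MLRel p d ρ :=
    mlrel_of_vrel ρ e eadd einj eρ (V := Gam G k) (fun w => (eV _).2 ⟨w, rfl⟩) ha hR
  let y : Fin m → Module.End (ZMod p) W := fun i => ρ (f i) - 1
  have hcomm : ∀ (i : Fin m) (w : W), e (y i w) = ⁅f i, e w⁆ := by
    intro i w
    change e (ρ (f i) w - w) = _
    rw [sub_eq_add_neg, eadd, eneg, eρ, commutatorElement_def]
  choose! wt hwt using fun (u : G) (hu : u ∈ Gam G k) => (eV u).1 hu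
  -- all words
  let F : ℕ → Set G := fun j => {x | ∃ w : List (Fin m), w.length = j ∧ ∃ u ∈ S,
    x = e (ev y w (wt u))}
  have hFG : ∀ (w : List (Fin m)) (u : G), u ∈ Gam G k →
      e (ev y w (wt u)) ∈ Gam G (k + w.length) := by
    intro w
    induction w with
    | nil =>
      intro u hu
      change e (wt u) ∈ _
      rw [hwt u hu]
      exact hu
    | cons i w ih =>
      intro u hu
      change e (y i (ev y w (wt u))) ∈ _
      rw [hcomm]
      exact com_mem' (ih u hu) (f i)
  have hFsub : ∀ j, F j ⊆ (Gam G (k + j) : Set G) := by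
    rintro j x ⟨w, rfl, u, hu, rfl⟩
    exact hFG w u (hS hu)
  have hgen : ∀ j, Gam G (k + j) ≤ Subgroup.closure (F j) ⊔ Gam G (k + j + 1) := by
    intro j
    induction j with
    | zero =>
      refine hSG.trans (sup_le_sup ?_ le_rfl)
      rw [Subgroup.closure_le]
      intro u hu
      apply Subgroup.subset_closure
      exact ⟨[], rfl, u, hu, (hwt u (hS hu)).symm⟩
    | succ j ih =>
      refine com_all (i := k + j) (T := F j) ?_ (hFsub j) ?_ ih
      · exact le_sup_right
      · intro u hu
        refine com_all_right (i := k + j) le_sup_right (hFsub j hu) hf ?_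
        rintro _ ⟨i, rfl⟩
        obtain ⟨w, hw, u', hu', rfl⟩ := hu
        apply Subgroup.mem_sup_left
        rw [← commutatorElement_inv, ← hcomm]
        apply Subgroup.inv_mem
        apply Subgroup.subset_closure
        exact ⟨i :: w, by simp [hw], u', hu', rfl⟩
  let T' : Finset (List (Fin m)) := T.filter (fun w => w.length = ℓ)
  let S' : Finset G := Finset.image₂ (fun w u => e (ev y w (wt u))) T' S
  have hT' : T'.card ≤ T.card := Finset.card_filter_le _ _
  refine ⟨S', ?_, ?_, ?_⟩
  · exact (Finset.card_image₂_le _ _ _).trans (Nat.mul_le_mul_right _ hT')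
  · intro x hx
    rw [Finset.mem_coe, Finset.mem_image₂] at hx
    obtain ⟨w, hw, u, hu, rfl⟩ := hx
    have hw' : w.length = ℓ := (Finset.mem_filter.1 hw).2
    rw [← hw']
    exact hFG w u (hS hu)
  · have h1 := hgen ℓ
    rw [hbot, sup_bot_eq] at h1
    refine h1.trans ?_
    rw [Subgroup.closure_le]
    -- the good endomorphisms
    let B : Subalgebra (ZMod p) (Module.End (ZMod p) W) := Algebra.adjoin (ZMod p) (Set.range ρ)
    let P : Submodule (ZMod p) W :=
      { carrier := {w | e w ∈ Subgroup.closure (S' : Set G)}
        add_mem' := by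
          intro x z hx hz
          change e (x + z) ∈ Subgroup.closure (S' : Set G)
          rw [eadd]
          exact mul_mem hx hz
        zero_mem' := by
          change e 0 ∈ Subgroup.closure (S' : Set G)
          rw [e0]
          exact one_mem _
        smul_mem' := by
          intro c x hx
          change e (c • x) ∈ Subgroup.closure (S' : Set G)
          have h2 : c • x = c.val • x := by
            rw [← Nat.cast_smul_eq_nsmul (ZMod p), ZMod.natCast_zmod_val]
          rw [h2, enat]
          exact pow_mem hx _ }
    let yB : Fin m → B := fun i =>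
      ⟨ρ (f i) - 1, sub_mem (Algebra.subset_adjoin ⟨f i, rfl⟩) (one_mem _)⟩
    have hev : ∀ w : List (Fin m), ((ev yB w : B) : Module.End (ZMod p) W) = ev y w := by
      intro w
      induction w with
      | nil => rfl
      | cons i w ih =>
        change ((yB i * ev yB w : B) : Module.End (ZMod p) W) = y i * ev y w
        rw [← ih]
        rfl
    have hgood : ∀ u ∈ S, ∀ w : List (Fin m), w.length = ℓ → ev y w (wt u) ∈ P := by
      intro u hu
      let M : Submodule (ZMod p) B :=
        { carrier := {b | (b : Module.End (ZMod p) W) (wt u) ∈ P}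
          add_mem' := by
            intro x z hx hz
            change ((x : Module.End (ZMod p) W) + (z : Module.End (ZMod p) W)) (wt u) ∈ P
            rw [LinearMap.add_apply]
            exact P.add_mem hx hz
          zero_mem' := by
            change (0 : Module.End (ZMod p) W) (wt u) ∈ P
            rw [LinearMap.zero_apply]
            exact P.zero_mem
          smul_mem' := by
            intro c x hx
            change (c • (x : Module.End (ZMod p) W)) (wt u) ∈ P
            rw [LinearMap.smul_apply]
            exact P.smul_mem c hx }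
      have h2 := rwr p d m ℓ B (pideg ρ hML) yB M ?_
      · intro w hw
        have h3 : ((ev yB w : B) : Module.End (ZMod p) W) (wt u) ∈ P := h2 w hw
        rwa [hev] at h3
      · intro w hw
        rcases hT w hw with h | h
        · left
          change ((ev yB w : B) : Module.End (ZMod p) W) (wt u) ∈ P
          rw [hev]
          apply Subgroup.subset_closure
          rw [Finset.mem_coe, Finset.mem_image₂]
          exact ⟨w, Finset.mem_filter.2 ⟨h, hw⟩, u, hu, rfl⟩
        · exact Or.inr h
    rintro x ⟨w, hw, u, hu, rfl⟩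
    exact hgood u hu w hw

end Pool.Agent.Helper82.OG
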